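import Pool.Agent.EDQ18.Main2

set_option autoImplicit false

/-!
# Existentially definable sets of rational points in finitely many lines

Let `E` be an elliptic curve over `ℚ` (any Weierstrass curve `W`; the group of its nonsingular
rational points). A set of rational points is existentially definable if its affine points are the
`(x, y)` for which a polynomial `p(x, y, z)` with rational coefficients vanishes for some rational
`z`. Equivalent are: the group has an existentially definable finitely generated subgroup of rank
one; some existentially definable set lies in finitely many cosets `Q i + ℤ (P i)` and has positive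
upper Banach density in one of them, with `P i` of infinite order; some existentially definable
set `A` lies in one coset `Q + ℤ P`, `P` of infinite order, and the sums of `k` differences of
elements of `A` have positive upper Banach density in `ℤ P` for some `k`; some such `A` contains
the points `Q + f(n) P`, `n = 0, 1, 2, …`, for a nonconstant polynomial `f` with integer
coefficients.
-/

namespace Pool.Agent.Results.MP_59db5d_nt.DenseInLines

open Pool.Agent.EDQ18

theorem result (W : WeierstrassCurve ℚ) :
    [∃ H : AddSubgroup W.toAffine.Point, H.FG ∧ Module.rank ℤ H = 1 ∧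
        Definable W (H : Set W.toAffine.Point),
      ∃ (m : ℕ) (P Q : Fin m → W.toAffine.Point) (A : Set W.toAffine.Point), Definable W A ∧
        (∀ a ∈ A, ∃ i, a - Q i ∈ AddSubgroup.zmultiples (P i)) ∧
        ∃ i, (∀ n : ℤ, n • P i = 0 → n = 0) ∧ UpperDense {n : ℤ | Q i + n • P i ∈ A},
      ∃ (P Q : W.toAffine.Point) (A : Set W.toAffine.Point), (∀ n : ℤ, n • P = 0 → n = 0) ∧
        Definable W A ∧ (∀ a ∈ A, a - Q ∈ AddSubgroup.zmultiples P) ∧
        ∃ k : ℕ, UpperDense {n : ℤ | n • P ∈ Sums A k},
      ∃ (P Q : W.toAffine.Point) (A : Set W.toAffine.Point) (f : Polynomial ℤ),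
        (∀ n : ℤ, n • P = 0 → n = 0) ∧ Definable W A ∧
        (∀ a ∈ A, a - Q ∈ AddSubgroup.zmultiples P) ∧ 0 < f.natDegree ∧
        ∀ n : ℕ, Q + f.eval (n : ℤ) • P ∈ A].TFAE :=
  tfae4 W

end Pool.Agent.Results.MP_59db5d_nt.DenseInLines
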