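import Pool.Agent.EDL10.Fg

/-! Existentially definable subgroups of `E(ℚ)`, `E` of rank two: if three subgroups of rank one,
any two of them with only torsion in common, are existentially definable, then every point of
infinite order has a nonzero multiple in an existentially definable subgroup of rank one, and
(with Mordell's theorem) every subgroup is existentially definable. So the number of
commensurability classes of subgroups of rank one with an existentially definable member is
`0`, `1`, `2`, or all of them are such classes. -/

set_option autoImplicit false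

namespace Pool.Agent.Results.MP_59db5d_nt.NoneOneTwoOrAll

open Pool.Agent.EDL10

theorem result (W : WeierstrassCurve ℚ) (hW : W.Δ ≠ 0)
    (hrank : Module.rank ℤ W.toAffine.Point = 2)
    (H : Fin 3 → AddSubgroup W.toAffine.Point)
    (hone : ∀ i, Module.rank ℤ (H i) = 1)
    (hdef : ∀ i, ED W (H i : Set W.toAffine.Point))
    (hind : ∀ i j, i ≠ j → ∀ Q, Q ∈ H i → Q ∈ H j → IsOfFinAddOrder Q) :
    (∀ P : W.toAffine.Point, ¬ IsOfFinAddOrder P →
      ∃ K : AddSubgroup W.toAffine.Point, ED W (K : Set W.toAffine.Point) ∧
        Module.rank ℤ K = 1 ∧ ∃ n : ℤ, n ≠ 0 ∧ n • P ∈ K) ∧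
    (Module.Finite ℤ W.toAffine.Point →
      ∀ K : AddSubgroup W.toAffine.Point, ED W (K : Set W.toAffine.Point)) := by
  have h1 := three_lines hW hrank H hone hdef hind
  exact ⟨h1, fun _ K => ED.all hW h1 K⟩

end Pool.Agent.Results.MP_59db5d_nt.NoneOneTwoOrAll
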